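import Pool.Agent.Helper47.EX.UpperCount

/-!
# MP_2b4692_nt, short intervals: the upper bound
-/

set_option autoImplicit false

namespace Pool.Agent.Helper97.SI

open Pool.Agent.Helper36.DC Pool.Agent.Helper47.EX Finset

theorem s2_le (Y : ℕ) (W : ℝ) (hW : 1 ≤ W) (hY : (Y : ℝ) ≤ W) :
    ((s 2 Y : ℕ) : ℝ) ≤ 1 + Real.log W / Real.log 2 := by
  have hlog2 : 0 < Real.log 2 := Real.log_pos (by norm_num)
  have h1 : s 2 Y ≤ (2 - 1) * (Nat.log 2 Y + 1) :=
    s_le 2 _ _ le_rfl (Nat.lt_pow_succ_log_self (by norm_num) _)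
  have h2 : ((s 2 Y : ℕ) : ℝ) ≤ Nat.log 2 Y + 1 := by
    have : s 2 Y ≤ Nat.log 2 Y + 1 := by simpa using h1
    exact_mod_cast this
  have h3 : (Nat.log 2 Y : ℝ) ≤ Real.log W / Real.log 2 := by
    rw [le_div_iff₀ hlog2]
    rcases Nat.eq_zero_or_pos Y with h0 | h0
    · subst h0
      simp [Real.log_nonneg hW]
    · have h4 : 2 ^ Nat.log 2 Y ≤ Y := Nat.pow_log_le_self _ (by omega)
      have h5 : ((2 : ℝ)) ^ Nat.log 2 Y ≤ W := le_trans (by exact_mod_cast h4) hY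
      have h6 := Real.log_le_log (by positivity) h5
      rwa [Real.log_pow] at h6
  linarith

theorem s3_le (Z : ℕ) (W : ℝ) (hW : 1 ≤ W) (hZ : (Z : ℝ) ≤ W) :
    ((s 3 Z : ℕ) : ℝ) ≤ 2 + 2 * Real.log W := by
  have hlog3 : 1 ≤ Real.log 3 := by
    rw [Real.le_log_iff_exp_le (by norm_num)]
    have := Real.exp_one_lt_d9
    linarith
  have h1 : s 3 Z ≤ (3 - 1) * (Nat.log 3 Z + 1) :=
    s_le 3 _ _ (by norm_num) (Nat.lt_pow_succ_log_self (by norm_num) _)
  have h2 : ((s 3 Z : ℕ) : ℝ) ≤ 2 * (Nat.log 3 Z + 1) := by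
    have : s 3 Z ≤ 2 * (Nat.log 3 Z + 1) := by simpa using h1
    exact_mod_cast this
  have h3 : (Nat.log 3 Z : ℝ) ≤ Real.log W := by
    rcases Nat.eq_zero_or_pos Z with h0 | h0
    · subst h0
      simp [Real.log_nonneg hW]
    · have h4 : 3 ^ Nat.log 3 Z ≤ Z := Nat.pow_log_le_self _ (by omega)
      have h5 : ((3 : ℝ)) ^ Nat.log 3 Z ≤ W := le_trans (by exact_mod_cast h4) hZ
      have h6 := Real.log_le_log (by positivity) h5
      rw [Real.log_pow] at h6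
      have h7 : (0 : ℝ) ≤ Nat.log 3 Z := Nat.cast_nonneg _
      nlinarith
  linarith

/-- The sum over one binary cell is at most four cell sums. -/
theorem cell_le (x : ℝ) (hx : 1 ≤ x) (G Y : ℕ) (B : ℝ)
    (hB : ∀ Z, SOv x 0 0 G (hh G) Y Z ≤ B) :
    ∑ n ∈ Finset.Ico (2 ^ G * Y) (2 ^ G * (Y + 1)), x ^ (s 2 n) / x ^ (s 3 n) ≤
      x ^ (s 2 Y) * (4 * B) := by
  have hx0 : 0 < x := by linarith
  set b := hh G with hb
  have hb1 : 2 ^ G < 3 ^ (b + 1) := two_pow_lt G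
  have hb0 : 0 < 3 ^ b := by positivity
  set Z0 : ℕ := 2 ^ G * Y / 3 ^ b with hZ0
  have h1 : ∑ n ∈ Finset.Ico (2 ^ G * Y) (2 ^ G * (Y + 1)), x ^ (s 2 n) / x ^ (s 3 n) =
      ∑ u ∈ range (2 ^ G), x ^ (s 2 (2 ^ G * Y + u)) / x ^ (s 3 (2 ^ G * Y + u)) := by
    rw [Finset.sum_Ico_eq_sum_range]
    have h0 : 2 ^ G * (Y + 1) - 2 ^ G * Y = 2 ^ G := by
      rw [Nat.mul_add, Nat.mul_one, Nat.add_sub_cancel_left]
    rw [h0]
  have h2 : ∑ u ∈ range (2 ^ G), x ^ (s 2 (2 ^ G * Y + u)) / x ^ (s 3 (2 ^ G * Y + u)) ≤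
      x ^ (s 2 Y) * ∑ Z ∈ Finset.Ico Z0 (Z0 + 4), SOv x 0 0 G b Y Z := by
    unfold SOv
    rw [Finset.sum_comm, Finset.mul_sum]
    apply Finset.sum_le_sum
    intro u hu
    have hu' : u < 2 ^ G := Finset.mem_range.1 hu
    set n := 2 ^ G * Y + u with hn
    have hZ1 : Z0 ≤ n / 3 ^ b := Nat.div_le_div_right (Nat.le_add_right _ _)
    have hZ2 : n / 3 ^ b < Z0 + 4 := by
      rw [Nat.div_lt_iff_lt_mul hb0]
      have h3 : 2 ^ G * Y < 3 ^ b * (Z0 + 1) := Nat.lt_mul_div_succ _ hb0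
      have h4 : 2 ^ G < 3 * 3 ^ b := by rw [pow_succ] at hb1; linarith
      calc n < 3 ^ b * (Z0 + 1) + 3 * 3 ^ b := by omega
        _ = (Z0 + 4) * 3 ^ b := by ring
    have hv : n % 3 ^ b < 3 ^ b := Nat.mod_lt _ hb0
    have hdec : 3 ^ b * (n / 3 ^ b) + n % 3 ^ b = n := Nat.div_add_mod n (3 ^ b)
    have hs : s 3 n = s 3 (n / 3 ^ b) + s 3 (n % 3 ^ b) := by
      conv_lhs => rw [← hdec]
      exact s_concat 3 b _ _ (by norm_num) hv
    have hs2 : s 2 n = s 2 Y + s 2 u := s_concat 2 G _ _ le_rfl hu'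
    have hOv : Ov 0 0 n (3 ^ b * (n / 3 ^ b) + n % 3 ^ b) := by
      rw [hdec]
      unfold Ov
      simp
    have hnn : ∀ Z ∈ Finset.Ico Z0 (Z0 + 4), 0 ≤ ∑ v ∈ range (3 ^ b),
        if Ov 0 0 n (3 ^ b * Z + v) then x ^ (s 2 u) / x ^ (s 3 v) else 0 := by
      intro Z _
      apply Finset.sum_nonneg
      intro v _
      split_ifs
      · positivity
      · exact le_refl _
    have hnn2 : ∀ v ∈ range (3 ^ b), 0 ≤
        if Ov 0 0 n (3 ^ b * (n / 3 ^ b) + v) then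
          x ^ (s 2 u) / x ^ (s 3 v) else 0 := by
      intro v _
      split_ifs
      · positivity
      · exact le_refl _
    calc x ^ (s 2 n) / x ^ (s 3 n)
        = x ^ (s 2 Y) * (x ^ (s 2 u) / x ^ (s 3 n)) := by
          rw [hs2, pow_add]
          ring
      _ ≤ x ^ (s 2 Y) * (x ^ (s 2 u) / x ^ (s 3 (n % 3 ^ b))) := by
          apply mul_le_mul_of_nonneg_left _ (by positivity)
          apply div_le_div_of_nonneg_left (by positivity) (by positivity)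
          rw [hs]
          exact pow_le_pow_right₀ hx (Nat.le_add_left _ _)
      _ ≤ x ^ (s 2 Y) * ∑ Z ∈ Finset.Ico Z0 (Z0 + 4), ∑ v ∈ range (3 ^ b),
            if Ov 0 0 n (3 ^ b * Z + v) then x ^ (s 2 u) / x ^ (s 3 v) else 0 := by
          apply mul_le_mul_of_nonneg_left _ (by positivity)
          refine le_trans ?_ (Finset.single_le_sum hnn (Finset.mem_Ico.2 ⟨hZ1, hZ2⟩))
          refine le_trans ?_ (Finset.single_le_sum hnn2 (Finset.mem_range.2 hv))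
          rw [if_pos hOv]
  rw [h1]
  refine le_trans h2 ?_
  apply mul_le_mul_of_nonneg_left _ (by positivity)
  calc ∑ Z ∈ Finset.Ico Z0 (Z0 + 4), SOv x 0 0 G b Y Z
      ≤ ∑ Z ∈ Finset.Ico Z0 (Z0 + 4), B := Finset.sum_le_sum (fun Z _ => hB Z)
    _ = 4 * B := by
        rw [Finset.sum_const, Nat.card_Ico, nsmul_eq_mul]
        have : Z0 + 4 - Z0 = 4 := by omega
        rw [this]
        norm_num

theorem count_mul_le (x : ℝ) (hx : 1 ≤ x) (k : ℤ) (S : Finset ℕ) :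
    (((S.filter (fun n => d n = k)).card : ℕ) : ℝ) * x ^ k ≤
      ∑ n ∈ S, x ^ (s 2 n) / x ^ (s 3 n) := by
  have hx0 : 0 < x := by linarith
  calc (((S.filter (fun n => d n = k)).card : ℕ) : ℝ) * x ^ k
      = ∑ n ∈ S.filter (fun n => d n = k), x ^ k := by
        rw [Finset.sum_const, nsmul_eq_mul]
    _ = ∑ n ∈ S.filter (fun n => d n = k), x ^ (s 2 n) / x ^ (s 3 n) := by
        apply Finset.sum_congr rfl
        intro n hn
        have h := (Finset.mem_filter.1 hn).2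
        rw [← h]
        unfold d
        rw [zpow_sub₀ hx0.ne', zpow_natCast, zpow_natCast]
    _ ≤ ∑ n ∈ S, x ^ (s 2 n) / x ^ (s 3 n) := by
        apply Finset.sum_le_sum_of_subset_of_nonneg (Finset.filter_subset _ _)
        intros
        positivity

/-- The number of `n` with `d n = k` in a window of length at most `2 ^ G`. -/
theorem window_count (x : ℝ) (hx : 1 ≤ x) (G N M : ℕ) (hM : M ≤ N + 2 ^ G) (B : ℝ)
    (hB : ∀ Y Z, SOv x 0 0 G (hh G) Y Z ≤ B) (W : ℝ) (hW : 1 ≤ W)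
    (hNW : ((N / 2 ^ G + 1 : ℕ) : ℝ) ≤ W) (k : ℤ) :
    ((((Finset.Ico N M).filter (fun n => d n = k)).card : ℕ) : ℝ) ≤
      Real.exp (Real.log x * |(k : ℝ)|) *
        (Real.exp (Real.log x * (1 + Real.log W / Real.log 2)) * (8 * B)) := by
  have hx0 : 0 < x := by linarith
  have hlx : 0 ≤ Real.log x := Real.log_nonneg hx
  have hB0 : 0 ≤ B := by
    refine le_trans ?_ (hB 0 0)
    unfold SOv
    apply Finset.sum_nonneg
    intro u _
    apply Finset.sum_nonneg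
    intro v _
    split_ifs
    · positivity
    · exact le_refl _
  set Y := N / 2 ^ G with hY
  have hp : 0 < 2 ^ G := by positivity
  have hN1 : 2 ^ G * Y ≤ N := Nat.mul_div_le _ _
  have hN2 : N < 2 ^ G * (Y + 1) := Nat.lt_mul_div_succ _ hp
  have hsub : (Finset.Ico N M) ⊆ Finset.Ico (2 ^ G * Y) (2 ^ G * (Y + 1)) ∪
      Finset.Ico (2 ^ G * (Y + 1)) (2 ^ G * (Y + 1 + 1)) := by
    intro n hn
    rw [Finset.mem_Ico] at hn
    rw [Finset.mem_union, Finset.mem_Ico, Finset.mem_Ico]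
    have h3 : 2 ^ G * (Y + 1 + 1) = 2 ^ G * (Y + 1) + 2 ^ G := by ring
    rcases lt_or_ge n (2 ^ G * (Y + 1)) with h | h
    · left; omega
    · right; omega
  have hterm : ∀ n : ℕ, 0 ≤ x ^ (s 2 n) / x ^ (s 3 n) := fun n => by positivity
  have hsum : ∑ n ∈ Finset.Ico N M, x ^ (s 2 n) / x ^ (s 3 n) ≤
      x ^ (s 2 Y) * (4 * B) + x ^ (s 2 (Y + 1)) * (4 * B) := by
    refine le_trans (Finset.sum_le_sum_of_subset_of_nonneg hsub (fun n _ _ => hterm n)) ?_
    rw [Finset.sum_union (Finset.disjoint_left.2 (by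
      intro n h1 h2
      rw [Finset.mem_Ico] at h1 h2
      omega))]
    exact add_le_add (cell_le x hx G Y B (hB Y)) (cell_le x hx G (Y + 1) B (hB (Y + 1)))
  have hpw : ∀ y : ℕ, (y : ℝ) ≤ W →
      x ^ (s 2 y) ≤ Real.exp (Real.log x * (1 + Real.log W / Real.log 2)) := by
    intro y hy
    have h1 := s2_le y W hW hy
    have h2 : x ^ (s 2 y) = Real.exp (Real.log x * (s 2 y : ℕ)) := by
      rw [mul_comm, Real.exp_nat_mul, Real.exp_log hx0]
    rw [h2]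
    apply Real.exp_le_exp.2
    exact mul_le_mul_of_nonneg_left h1 hlx
  have hYW : (Y : ℝ) ≤ W := le_trans (by push_cast; linarith) hNW
  have h3 := hpw Y hYW
  have h4 := hpw (Y + 1) hNW
  set Q := Real.exp (Real.log x * (1 + Real.log W / Real.log 2)) with hQ
  have hmain := le_trans (count_mul_le x hx k (Finset.Ico N M)) hsum
  have h5 : ((((Finset.Ico N M).filter (fun n => d n = k)).card : ℕ) : ℝ) * x ^ k ≤
      Q * (8 * B) := by
    refine le_trans hmain ?_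
    have h6 : x ^ (s 2 Y) * (4 * B) ≤ Q * (4 * B) := by gcongr
    have h7 : x ^ (s 2 (Y + 1)) * (4 * B) ≤ Q * (4 * B) := by gcongr
    linarith
  have hxk : 0 < x ^ k := zpow_pos hx0 k
  have h8 : ((((Finset.Ico N M).filter (fun n => d n = k)).card : ℕ) : ℝ) ≤
      x ^ (-k) * (Q * (8 * B)) := by
    rw [zpow_neg, inv_mul_eq_div, le_div_iff₀ hxk]
    exact h5
  refine le_trans h8 ?_
  apply mul_le_mul_of_nonneg_right _ (by positivity)
  have h9 : x ^ (-k) = Real.exp (Real.log x * ((-k : ℤ) : ℝ)) := by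
    rw [mul_comm, ← Real.rpow_intCast, Real.rpow_def_of_pos hx0, mul_comm]
  rw [h9]
  apply Real.exp_le_exp.2
  apply mul_le_mul_of_nonneg_left _ hlx
  push_cast
  exact neg_le_abs _

theorem upper_short (x : ℝ) (hx : 1 ≤ x) (hx1 : x ≤ 13 / 10) (hH : 0.9815 < H x) (θ : ℝ)
    (hθ0 : 0 < θ) (hθ1 : θ < 1) : ∀ᶠ N : ℕ in Filter.atTop, ∀ k : ℤ,
      |(k : ℝ)| ≤ (1 - θ) * Real.log N →
      ((((Finset.Ico N ⌈(N : ℝ) + (N : ℝ) ^ θ⌉₊).filter (fun n => d n = k)).card : ℕ) : ℝ) ≤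
        (N : ℝ) ^ (H x - (1 - θ) / 3) := by
  have hx0 : 0 < x := by linarith
  have hlx : 0 ≤ Real.log x := Real.log_nonneg hx
  have hlog2 : 0 < Real.log 2 := Real.log_pos (by norm_num)
  have hlog2' : Real.log 2 < 0.6931471808 := Real.log_two_lt_d9
  -- the bound for log x
  have hlx1 : Real.log x ≤ 8 / 21 * Real.log 2 := by
    have h1 : Real.log x ≤ Real.log (13 / 10) := Real.log_le_log hx0 hx1
    have h2 : 21 * Real.log (13 / 10) ≤ 8 * Real.log 2 := by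
      have h3 : Real.log ((13 / 10 : ℝ) ^ 21) ≤ Real.log ((2 : ℝ) ^ 8) :=
        Real.log_le_log (by positivity) (by norm_num)
      rw [Real.log_pow, Real.log_pow] at h3
      exact_mod_cast h3
    linarith
  set σ : ℝ := 1 - θ with hσ
  have hσ0 : 0 < σ := by rw [hσ]; linarith
  set ε : ℝ := σ / 1000 with hε
  have hε0 : 0 < ε := by rw [hε]; positivity
  obtain ⟨C, hC1, hC⟩ := Inputs.upper_main x hx hx1
  obtain ⟨m, hm⟩ := exists_nat_ge (Real.logb 2 C / ε + 1)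
  have hlogC : 0 ≤ Real.logb 2 C := Real.logb_nonneg (by norm_num) hC1
  have hm1 : 1 ≤ m := by
    have h0 : 0 ≤ Real.logb 2 C / ε := by positivity
    have : (1 : ℝ) ≤ m := by linarith
    exact_mod_cast this
  have hCm : C ≤ (2 : ℝ) ^ ((m : ℝ) * ε) := by
    rw [← Real.logb_le_iff_le_rpow (by norm_num) (by linarith)]
    have h1 : Real.logb 2 C / ε ≤ m := by linarith
    rw [div_le_iff₀ hε0] at h1
    linarith
  obtain ⟨n0, hn0⟩ := hC m hm1
  -- the constant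
  set K : ℝ := 8 * Real.exp (2 * Real.log x) * (2 : ℝ) ^ (((m : ℝ) + 1) * (H x + ε)) with hK
  have hK0 : 0 < K := by positivity
  have hev1 : ∀ᶠ N : ℕ in Filter.atTop, (((2 ^ m) ^ n0 : ℕ) : ℝ) ≤ (N : ℝ) ^ θ := by
    have : Filter.Tendsto (fun N : ℕ => (N : ℝ) ^ θ) Filter.atTop Filter.atTop :=
      (tendsto_rpow_atTop hθ0).comp tendsto_natCast_atTop_atTop
    exact this.eventually_ge_atTop _
  have hev2 : ∀ᶠ N : ℕ in Filter.atTop, 1 ≤ N := Filter.eventually_ge_atTop _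
  have hev3 : ∀ᶠ N : ℕ in Filter.atTop, K ≤ (N : ℝ) ^ ε := by
    have : Filter.Tendsto (fun N : ℕ => (N : ℝ) ^ ε) Filter.atTop Filter.atTop :=
      (tendsto_rpow_atTop hε0).comp tendsto_natCast_atTop_atTop
    exact this.eventually_ge_atTop K
  filter_upwards [hev1, hev2, hev3] with N h1 h2 h3 k hk
  have hN0 : (0 : ℝ) < N := by exact_mod_cast (by omega : 0 < N)
  have hN1 : (1 : ℝ) ≤ N := by exact_mod_cast h2
  set ℓ := Real.log N with hℓ
  have hℓ0 : 0 ≤ ℓ := Real.log_nonneg hN1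
  have hNθ1 : (1 : ℝ) ≤ (N : ℝ) ^ θ := Real.one_le_rpow hN1 hθ0.le
  have hNσ1 : (1 : ℝ) ≤ (N : ℝ) ^ σ := Real.one_le_rpow hN1 hσ0.le
  set T : ℕ := ⌈(N : ℝ) ^ θ⌉₊ with hT
  have hT1 : (N : ℝ) ^ θ ≤ T := Nat.le_ceil _
  have hT2 : (T : ℝ) ≤ 2 * (N : ℝ) ^ θ := by
    have := (Nat.ceil_lt_add_one (a := (N : ℝ) ^ θ) (by positivity)).le
    linarith
  have hTpos : T ≠ 0 := by
    intro h0
    rw [h0] at hT1
    norm_num at hT1
    linarith
  have h2m : 1 < 2 ^ m := Nat.one_lt_two_pow (by omega)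
  set n := Nat.log (2 ^ m) T + 1 with hn
  have hTlt : T < (2 ^ m) ^ n := Nat.lt_pow_succ_log_self h2m T
  have hTge : (2 ^ m) ^ (n - 1) ≤ T := by
    rw [hn, Nat.add_sub_cancel]
    exact Nat.pow_log_le_self _ hTpos
  have hnn0 : n0 ≤ n := by
    have h4 : (2 ^ m) ^ n0 ≤ T := by
      have : (((2 ^ m) ^ n0 : ℕ) : ℝ) ≤ (T : ℝ) := le_trans h1 hT1
      exact_mod_cast this
    have : n0 ≤ Nat.log (2 ^ m) T := Nat.le_log_of_pow_le h2m h4
    omega
  set G := n * m with hG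
  have hpG : (2 ^ m) ^ n = 2 ^ G := by rw [← pow_mul, mul_comm]
  have hTG : T < 2 ^ G := by rw [← hpG]; exact hTlt
  have hG2 : (2 : ℝ) ^ G ≤ 2 ^ m * (2 * (N : ℝ) ^ θ) := by
    have h5 : 2 ^ G ≤ 2 ^ m * T := by
      rw [← hpG]
      calc (2 ^ m) ^ n = 2 ^ m * (2 ^ m) ^ (n - 1) := by
            rw [← pow_succ', Nat.sub_add_cancel (by omega)]
        _ ≤ 2 ^ m * T := Nat.mul_le_mul_left _ hTge
    have h6 : (2 : ℝ) ^ G ≤ 2 ^ m * T := by exact_mod_cast h5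
    calc (2 : ℝ) ^ G ≤ 2 ^ m * T := h6
      _ ≤ 2 ^ m * (2 * (N : ℝ) ^ θ) := by gcongr
  have hS : ∀ Y Z, SOv x 0 0 G (hh G) Y Z ≤ C ^ n * (2 : ℝ) ^ (((G : ℕ) : ℝ) * H x) := by
    intro Y Z
    have := hn0 n hnn0 0 (by omega) Y Z
    simp only [Nat.zero_mul, hh_zero, Nat.sub_zero] at this
    exact this
  have hM : ⌈(N : ℝ) + (N : ℝ) ^ θ⌉₊ ≤ N + 2 ^ G := by
    apply Nat.ceil_le.2
    push_cast
    have h5 : (T : ℝ) ≤ (2 : ℝ) ^ G := by exact_mod_cast hTG.le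
    linarith
  -- the number of cells
  set W : ℝ := 2 * (N : ℝ) ^ σ with hW
  have hW1 : 1 ≤ W := by rw [hW]; linarith
  have hNW : ((N / 2 ^ G + 1 : ℕ) : ℝ) ≤ W := by
    push_cast
    have h5 : ((N / 2 ^ G : ℕ) : ℝ) ≤ (N : ℝ) / ((2 ^ G : ℕ) : ℝ) := Nat.cast_div_le
    have h6 : (N : ℝ) / ((2 ^ G : ℕ) : ℝ) ≤ (N : ℝ) / (N : ℝ) ^ θ := by
      apply div_le_div_of_nonneg_left hN0.le (by positivity)
      refine le_trans hT1 ?_
      exact_mod_cast hTG.le
    have h7 : (N : ℝ) / (N : ℝ) ^ θ = (N : ℝ) ^ σ := by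
      rw [hσ, Real.rpow_sub hN0, Real.rpow_one]
    rw [h7] at h6
    rw [hW]
    linarith
  have hcount := window_count x hx G N _ hM _ hS W hW1 hNW k
  refine le_trans hcount ?_
  have hlogW : Real.log W = Real.log 2 + σ * ℓ := by
    rw [hW, Real.log_mul (by norm_num) (by positivity), Real.log_rpow hN0]
  have hCn : C ^ n ≤ (2 : ℝ) ^ (((G : ℕ) : ℝ) * ε) := by
    calc C ^ n ≤ ((2 : ℝ) ^ ((m : ℝ) * ε)) ^ n := pow_le_pow_left₀ (by linarith) hCm n
      _ = (2 : ℝ) ^ (((G : ℕ) : ℝ) * ε) := by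
        rw [← Real.rpow_natCast, ← Real.rpow_mul (by norm_num), hG]
        congr 1
        push_cast
        ring
  have hHε : 0 ≤ H x + ε := by linarith
  have hB2 : C ^ n * (2 : ℝ) ^ (((G : ℕ) : ℝ) * H x) ≤
      (2 : ℝ) ^ (((m : ℝ) + 1) * (H x + ε)) * Real.exp (θ * (H x + ε) * ℓ) := by
    calc C ^ n * (2 : ℝ) ^ (((G : ℕ) : ℝ) * H x)
        ≤ (2 : ℝ) ^ (((G : ℕ) : ℝ) * ε) * (2 : ℝ) ^ (((G : ℕ) : ℝ) * H x) := by gcongr
      _ = ((2 : ℝ) ^ G) ^ (H x + ε) := by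
          rw [← Real.rpow_add (by norm_num), ← Real.rpow_natCast, ← Real.rpow_mul (by norm_num)]
          ring_nf
      _ ≤ (2 ^ m * (2 * (N : ℝ) ^ θ)) ^ (H x + ε) :=
          Real.rpow_le_rpow (by positivity) hG2 hHε
      _ = ((2 : ℝ) ^ ((m : ℝ) + 1) * (N : ℝ) ^ θ) ^ (H x + ε) := by
          congr 1
          rw [Real.rpow_add (by norm_num), Real.rpow_natCast, Real.rpow_one]
          ring
      _ = (2 : ℝ) ^ (((m : ℝ) + 1) * (H x + ε)) * Real.exp (θ * (H x + ε) * ℓ) := by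
          rw [Real.mul_rpow (by positivity) (by positivity), ← Real.rpow_mul (by norm_num),
            ← Real.rpow_mul hN0.le]
          congr 1
          rw [Real.rpow_def_of_pos hN0]
          congr 1
          rw [← hℓ]
          ring
  have hfac1 : Real.exp (Real.log x * |(k : ℝ)|) ≤ Real.exp (Real.log x * (σ * ℓ)) := by
    apply Real.exp_le_exp.2
    exact mul_le_mul_of_nonneg_left hk hlx
  have hdiv : Real.log x * (1 + Real.log W / Real.log 2) =
      2 * Real.log x + Real.log x * (σ * ℓ) / Real.log 2 := by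
    rw [hlogW]
    field_simp
    ring
  have hrat : Real.log x * (σ * ℓ) / Real.log 2 ≤ 8 / 21 * (σ * ℓ) := by
    rw [div_le_iff₀ hlog2]
    have : 0 ≤ σ * ℓ := by positivity
    nlinarith
  have hfac2 : Real.exp (Real.log x * (1 + Real.log W / Real.log 2)) ≤
      Real.exp (2 * Real.log x) * Real.exp (8 / 21 * (σ * ℓ)) := by
    rw [hdiv, ← Real.exp_add]
    apply Real.exp_le_exp.2
    linarith
  have hKe : K ≤ Real.exp (ε * ℓ) := by
    refine le_trans h3 (le_of_eq ?_)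
    rw [Real.rpow_def_of_pos hN0, ← hℓ, mul_comm]
  calc Real.exp (Real.log x * |(k : ℝ)|) *
        (Real.exp (Real.log x * (1 + Real.log W / Real.log 2)) *
          (8 * (C ^ n * (2 : ℝ) ^ (((G : ℕ) : ℝ) * H x))))
      ≤ Real.exp (Real.log x * (σ * ℓ)) *
        ((Real.exp (2 * Real.log x) * Real.exp (8 / 21 * (σ * ℓ))) *
          (8 * ((2 : ℝ) ^ (((m : ℝ) + 1) * (H x + ε)) * Real.exp (θ * (H x + ε) * ℓ)))) := by
        gcongr
    _ = K * (Real.exp (Real.log x * (σ * ℓ)) * Real.exp (8 / 21 * (σ * ℓ)) *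
          Real.exp (θ * (H x + ε) * ℓ)) := by
        rw [hK]; ring
    _ ≤ Real.exp (ε * ℓ) * (Real.exp (Real.log x * (σ * ℓ)) * Real.exp (8 / 21 * (σ * ℓ)) *
          Real.exp (θ * (H x + ε) * ℓ)) := by gcongr
    _ = Real.exp ((ε + Real.log x * σ + 8 / 21 * σ + θ * (H x + ε)) * ℓ) := by
        rw [← Real.exp_add, ← Real.exp_add, ← Real.exp_add]
        congr 1
        ring
    _ ≤ Real.exp ((H x - (1 - θ) / 3) * ℓ) := by
        apply Real.exp_le_exp.2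
        apply mul_le_mul_of_nonneg_right _ hℓ0
        have hθσ : θ = 1 - σ := by rw [hσ]; ring
        rw [hθσ]
        have e1 : Real.log x * σ ≤ 8 / 21 * Real.log 2 * σ :=
          mul_le_mul_of_nonneg_right hlx1 hσ0.le
        have e2 : 8 / 21 * Real.log 2 * σ ≤ 8 / 21 * 0.6931471808 * σ := by gcongr
        have e3 : σ * 0.9815 ≤ σ * H x := by gcongr
        have e4 : (1 - σ) * ε ≤ ε := by nlinarith
        have e5 : (1 - σ) * (H x + ε) = H x - σ * H x + (1 - σ) * ε := by ring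
        have e6 : (1 - (1 - σ)) / 3 = σ / 3 := by ring
        rw [e5, e6]
        have e7 : ε = σ / 1000 := hε
        linarith
    _ = (N : ℝ) ^ (H x - (1 - θ) / 3) := by
        rw [Real.rpow_def_of_pos hN0, ← hℓ, mul_comm]

end Pool.Agent.Helper97.SI
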