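import Pool.Agent.Helper47.EX.LowerCount
import Pool.Agent.Helper97.SI.Up

/-!
# MP_2b4692_nt, short intervals: the lower bound
-/

set_option autoImplicit false

namespace Pool.Agent.Helper97.SI

open Pool.Agent.Helper36.DC Pool.Agent.Helper47.EX Finset


theorem exp_ineq (G a m σ c η ℓ R : ℝ) (hσ : 0 < σ) (hc : 0 < c) (hR : 0 < R)
    (hσc : σ * (32 / c) < 1) (hσ8 : σ * 8 < 1) (hm : 0 ≤ m) (hG : 0 ≤ G)
    (hη0 : 0.981 < η) (hη1 : η < 1) (hR1 : 1 / R ≤ 16 * σ / c) (hℓ : 0 ≤ ℓ)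
    (ha : G * (1 - 1 / R) ≤ a) (hσℓ : m + 1 ≤ σ * ℓ)
    (hG2 : (1 - σ) * ℓ ≤ (G + m + 1) * Real.log 2) :
    ℓ * (η - (32 / c + 8) * σ) ≤ Real.log 2 * (a * η - 2 * σ * G) := by
  have hlog2 : 0 < Real.log 2 := Real.log_pos (by norm_num)
  have hlog2' : Real.log 2 < 0.6931471808 := Real.log_two_lt_d9
  set q : ℝ := 16 * σ / c with hq
  have hq0 : 0 ≤ q := by positivity
  have hq1 : q < 1 / 2 := by
    have : q = σ * (32 / c) / 2 := by rw [hq]; ring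
    rw [this]
    linarith
  set E : ℝ := η - q - 2 * σ with hE
  have hE0 : 0 < E := by rw [hE]; linarith
  have hE1 : E ≤ 1 := by rw [hE]; linarith
  have h1 : G * E ≤ a * η - 2 * σ * G := by
    have h2 : G * (1 - 1 / R) * η ≤ a * η := mul_le_mul_of_nonneg_right ha (by linarith)
    have h3 : G * (1 / R * η) ≤ G * q := by
      apply mul_le_mul_of_nonneg_left _ hG
      have h5 : 0 ≤ 1 / R := by positivity
      have h6 : 1 / R * η ≤ 1 / R * 1 := mul_le_mul_of_nonneg_left hη1.le h5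
      linarith
    have h5 : G * (1 - 1 / R) * η = G * η - G * (1 / R * η) := by ring
    have h6 : G * E = G * η - G * q - 2 * σ * G := by rw [hE]; ring
    rw [h6]
    linarith
  have h2 : Real.log 2 * (G * E) ≤ Real.log 2 * (a * η - 2 * σ * G) :=
    mul_le_mul_of_nonneg_left h1 hlog2.le
  refine le_trans ?_ h2
  have h3 : ((1 - σ) * ℓ - (m + 1) * Real.log 2) * E ≤ (G * Real.log 2) * E := by
    apply mul_le_mul_of_nonneg_right _ hE0.le
    linarith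
  have h3' : (G * Real.log 2) * E = Real.log 2 * (G * E) := by ring
  rw [h3'] at h3
  refine le_trans ?_ h3
  have h4 : ((1 - σ) * ℓ - (m + 1) * Real.log 2) * E =
      ℓ * E - σ * ℓ * E - (m + 1) * Real.log 2 * E := by ring
  have hσℓ0 : 0 ≤ σ * ℓ := by positivity
  have h5 : σ * ℓ * E ≤ σ * ℓ * 1 := mul_le_mul_of_nonneg_left hE1 hσℓ0
  have h6 : (m + 1) * Real.log 2 * E ≤ (m + 1) * 1 * 1 := by
    apply mul_le_mul _ hE1 hE0.le (by linarith)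
    apply mul_le_mul_of_nonneg_left _ (by linarith)
    linarith
  have h7 : ℓ * (η - (32 / c + 8) * σ) = ℓ * E - q * ℓ - 6 * (σ * ℓ) := by
    rw [hE, hq]
    field_simp
    ring
  have h8 : 0 ≤ q * ℓ := by positivity
  rw [h4, h7]
  linarith

theorem repair_ineq (m c σ R G ℓ n n1 : ℝ) (hσ : 0 < σ) (hσ1 : σ < 1) (hc : 0 < c) (hc1 : c ≤ 1)
    (hR : 0 < R) (hm : 1 ≤ m) (hG : G = n * m) (hG0 : 0 ≤ G)
    (hRσ : 8 * σ * R ≤ c) (hℓ : ℓ ≤ G + m + 1)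
    (hn2 : (6 * m + 13) * (2 * R) / c ≤ G) (hn1 : n / R - 1 ≤ n1) :
    σ * ℓ + (2 * m + 10 + 2 * (σ * ℓ)) + σ * G ≤ c * (n1 * m) := by
  have h1 : σ * ℓ ≤ σ * (G + m + 1) := mul_le_mul_of_nonneg_left hℓ hσ.le
  have h2 : σ * (m + 1) ≤ 1 * (m + 1) := mul_le_mul_of_nonneg_right hσ1.le (by linarith)
  have h3 : σ * ℓ + (2 * m + 10 + 2 * (σ * ℓ)) + σ * G ≤ 5 * m + 13 + 4 * (σ * G) := by
    have h4 : σ * (G + m + 1) = σ * G + σ * (m + 1) := by ring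
    rw [h4] at h1
    linarith
  refine le_trans h3 ?_
  have h5 : 4 * (σ * G) ≤ c / (2 * R) * G := by
    have h6 : 4 * σ ≤ c / (2 * R) := by
      rw [le_div_iff₀ (by positivity)]
      linarith
    calc 4 * (σ * G) = 4 * σ * G := by ring
      _ ≤ c / (2 * R) * G := mul_le_mul_of_nonneg_right h6 hG0
  have h10 : 6 * m + 13 ≤ c / (2 * R) * G := by
    rw [div_le_iff₀ hc] at hn2
    have h11 : c / (2 * R) * G = G * c / (2 * R) := by ring
    rw [h11, le_div_iff₀ (by positivity)]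
    exact hn2
  have h12 : c * ((n / R - 1) * m) ≤ c * (n1 * m) :=
    mul_le_mul_of_nonneg_left (mul_le_mul_of_nonneg_right hn1 (by linarith)) hc.le
  have h13 : c * ((n / R - 1) * m) = 2 * (c / (2 * R) * G) - c * m := by
    rw [hG]
    field_simp
  have h14 : c * m ≤ 1 * m := mul_le_mul_of_nonneg_right hc1 (by linarith)
  linarith

/-- The cell at level `G` just above `N`: sizes. -/
theorem cell_sizes (N G m : ℕ) (σ θ : ℝ) (hN0 : 1 ≤ N) (hσ : 0 < σ) (hσθ : σ + θ = 1)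
    (hNθG : (N : ℝ) ^ θ ≤ 2 ^ (G + m + 1)) (Y Z : ℕ) (hY : Y = N / 2 ^ G + 1)
    (hZ : Z = (2 ^ G * (2 * Y + 1)) / (2 * 3 ^ hh G)) :
    |((s 2 Y : ℕ) : ℝ) - ((s 3 Z : ℕ) : ℝ)| ≤ 2 * m + 10 + 2 * (σ * Real.log N) := by
  have hN0' : (0 : ℝ) < N := by exact_mod_cast hN0
  have hN1 : (1 : ℝ) ≤ N := by exact_mod_cast hN0
  set ℓ := Real.log N with hℓ
  have hℓ0 : 0 ≤ ℓ := Real.log_nonneg hN1
  have hlog2 : 0 < Real.log 2 := Real.log_pos (by norm_num)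
  have hlog2' : Real.log 2 < 0.6931471808 := Real.log_two_lt_d9
  have hlog2'' : 0.6931471803 < Real.log 2 := Real.log_two_gt_d9
  have hNσ1 : (1 : ℝ) ≤ (N : ℝ) ^ σ := Real.one_le_rpow hN1 hσ.le
  have h3pos : 0 < 3 ^ hh G := by positivity
  have h2pos : 0 < 2 ^ G := by positivity
  have hZ1 : 2 * 3 ^ hh G * Z ≤ 2 ^ G * (2 * Y + 1) := by
    rw [hZ]
    exact Nat.mul_div_le _ _
  set W : ℝ := 2 ^ (m + 2) * (N : ℝ) ^ σ with hW
  have hp1 : (1 : ℝ) ≤ 2 ^ (m + 1) := one_le_pow₀ (by norm_num)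
  have h8 : (1 : ℝ) ≤ 2 ^ (m + 1) * (N : ℝ) ^ σ := by
    calc (1 : ℝ) = 1 * 1 := by ring
      _ ≤ 2 ^ (m + 1) * (N : ℝ) ^ σ := mul_le_mul hp1 hNσ1 zero_le_one (by positivity)
  have h9 : W = 2 * (2 ^ (m + 1) * (N : ℝ) ^ σ) := by rw [hW]; ring
  have hW1 : 1 ≤ W := by
    rw [h9]
    linarith
  have hYW : (Y : ℝ) ≤ W := by
    rw [hY]
    push_cast
    have h5 : ((N / 2 ^ G : ℕ) : ℝ) ≤ (N : ℝ) / ((2 ^ G : ℕ) : ℝ) := Nat.cast_div_le
    have h6 : (N : ℝ) / ((2 ^ G : ℕ) : ℝ) ≤ 2 ^ (m + 1) * (N : ℝ) ^ σ := by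
      rw [div_le_iff₀ (by positivity)]
      have h7 : (N : ℝ) = (N : ℝ) ^ σ * (N : ℝ) ^ θ := by
        rw [← Real.rpow_add hN0', hσθ, Real.rpow_one]
      calc (N : ℝ) = (N : ℝ) ^ σ * (N : ℝ) ^ θ := h7
        _ ≤ (N : ℝ) ^ σ * 2 ^ (G + m + 1) :=
          mul_le_mul_of_nonneg_left hNθG (by positivity)
        _ = 2 ^ (m + 1) * (N : ℝ) ^ σ * ((2 ^ G : ℕ) : ℝ) := by
          push_cast
          ring
    rw [h9]
    linarith
  have hZb : Z ≤ 3 * Y + 1 := by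
    have h3 : 2 ^ G < 3 * 3 ^ hh G := by
      have := two_pow_lt G
      rw [pow_succ] at this
      linarith
    by_contra hcon
    have hcon' : 3 * Y + 2 ≤ Z := by omega
    have h4 : 2 * 3 ^ hh G * (3 * Y + 2) ≤ 2 * 3 ^ hh G * Z := Nat.mul_le_mul_left _ hcon'
    nlinarith
  have hZW : (Z : ℝ) ≤ 4 * W := by
    have h1 : (Z : ℝ) ≤ 3 * Y + 1 := by exact_mod_cast hZb
    linarith
  have hlogW : Real.log W = ((m : ℝ) + 2) * Real.log 2 + σ * ℓ := by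
    rw [hW, Real.log_mul (by positivity) (by positivity), Real.log_rpow hN0', Real.log_pow]
    push_cast
    ring
  have hσℓ0 : 0 ≤ σ * ℓ := by positivity
  have hm0 : (0 : ℝ) ≤ m := Nat.cast_nonneg _
  have hs2 : ((s 2 Y : ℕ) : ℝ) ≤ 2 * m + 10 + 2 * (σ * ℓ) := by
    refine le_trans (s2_le Y W hW1 hYW) ?_
    rw [hlogW]
    have h1 : (((m : ℝ) + 2) * Real.log 2 + σ * ℓ) / Real.log 2 =
        (m : ℝ) + 2 + σ * ℓ / Real.log 2 := by
      field_simp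
    have h2 : σ * ℓ / Real.log 2 ≤ 2 * (σ * ℓ) := by
      rw [div_le_iff₀ hlog2]
      have : σ * ℓ * 1 ≤ σ * ℓ * (2 * Real.log 2) :=
        mul_le_mul_of_nonneg_left (by linarith) hσℓ0
      linarith
    rw [h1]
    linarith
  have hs3 : ((s 3 Z : ℕ) : ℝ) ≤ 2 * m + 10 + 2 * (σ * ℓ) := by
    refine le_trans (s3_le Z (4 * W) (by linarith) hZW) ?_
    have h1 : Real.log (4 * W) = 2 * Real.log 2 + (((m : ℝ) + 2) * Real.log 2 + σ * ℓ) := by
      rw [Real.log_mul (by norm_num) (by positivity), hlogW]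
      congr 1
      rw [show (4 : ℝ) = 2 ^ 2 by norm_num, Real.log_pow]
      norm_num
    rw [h1]
    have h2 : ((m : ℝ) + 2) * Real.log 2 ≤ ((m : ℝ) + 2) * 1 :=
      mul_le_mul_of_nonneg_left (by linarith) (by linarith)
    linarith
  have hs20 : (0 : ℝ) ≤ ((s 2 Y : ℕ) : ℝ) := Nat.cast_nonneg _
  have hs30 : (0 : ℝ) ≤ ((s 3 Z : ℕ) : ℝ) := Nat.cast_nonneg _
  rw [abs_le]
  constructor
  · linarith
  · linarith

/-- The choice of `R`. -/
theorem choose_R (c σ : ℝ) (hc : 0 < c) (hσ0 : 0 < σ) (hσc : 32 * σ < c) :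
    ∃ R : ℕ, 4 ≤ R ∧ 8 * σ * R ≤ c ∧ 1 / (R : ℝ) ≤ 16 * σ / c := by
  refine ⟨⌊c / (8 * σ)⌋₊, ?_, ?_, ?_⟩
  · apply Nat.le_floor
    have hR4 : 4 ≤ c / (8 * σ) := by
      rw [le_div_iff₀ (by positivity)]
      linarith
    exact_mod_cast hR4
  · have hRle : ((⌊c / (8 * σ)⌋₊ : ℕ) : ℝ) ≤ c / (8 * σ) := Nat.floor_le (by positivity)
    rw [le_div_iff₀ (by positivity)] at hRle
    linarith
  · set R : ℕ := ⌊c / (8 * σ)⌋₊ with hR
    have hR4 : 4 ≤ R := by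
      apply Nat.le_floor
      have hR4 : 4 ≤ c / (8 * σ) := by
        rw [le_div_iff₀ (by positivity)]
        linarith
      exact_mod_cast hR4
    have hR0 : (4 : ℝ) ≤ R := by exact_mod_cast hR4
    have h1 : c / (8 * σ) < R + 1 := Nat.lt_floor_add_one _
    have h2 : c < (R + 1) * (8 * σ) := by
      rwa [div_lt_iff₀ (by positivity)] at h1
    rw [div_le_div_iff₀ (by linarith) hc]
    nlinarith

theorem lower_short (x0 : ℝ) (hx0 : 1 < x0) (hx1 : x0 < 13 / 10)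
    (hH0 : 0.981 < H x0) (hH1 : H x0 < 1)
    (hder : ∀ c : ℝ, 0 < c → ∃ δ : ℝ, 0 < δ ∧ δ < 1 ∧
      1 ≤ x0 * Real.exp (-δ) ∧ x0 * Real.exp δ ≤ 13 / 10 ∧
      H (x0 * Real.exp δ) ≤ H x0 + c * δ ∧ H (x0 * Real.exp (-δ)) ≤ H x0 + c * δ) :
    ∃ C : ℝ, 8 ≤ C ∧ ∀ θ : ℝ, 1 - 1 / C < θ → θ < 1 → ∀ᶠ N : ℕ in Filter.atTop, ∀ k : ℤ,
      |(k : ℝ)| ≤ (1 - θ) * Real.log N →
      (N : ℝ) ^ (H x0 - C * (1 - θ)) ≤
        ((((Finset.Ico N ⌈(N : ℝ) + (N : ℝ) ^ θ⌉₊).filter (fun n => d n = k)).card : ℕ) : ℝ) := by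
  obtain ⟨c', hc', g0, hloc'⟩ := Inputs.local_windows
  -- we may assume `c ≤ 1`
  set c : ℝ := min c' 1 with hcdef
  have hc : 0 < c := by rw [hcdef]; positivity
  have hc1 : c ≤ 1 := min_le_right _ _
  have hcc' : c ≤ c' := min_le_left _ _
  have hloc : ∀ g : ℕ, g0 ≤ g → ∀ Y Z : ℕ, OK g (hh g) Y Z → ∀ t : ℤ, |(t : ℝ)| ≤ c * g →
      ∃ n : ℕ, n / 2 ^ g = Y ∧ n / 3 ^ hh g = Z ∧
        (s 2 (n % 2 ^ g) : ℤ) - (s 3 (n % 3 ^ hh g) : ℤ) = t := by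
    intro g hg Y Z hOK t ht
    exact hloc' g hg Y Z hOK t (le_trans ht (by gcongr))
  set C : ℝ := 32 / c + 8 with hC
  have h32 : 0 < 32 / c := by positivity
  have hCpos : 0 < C := by rw [hC]; linarith
  refine ⟨C, by rw [hC]; linarith, ?_⟩
  intro θ hθC hθ1
  set σ : ℝ := 1 - θ with hσ
  have hσ0 : 0 < σ := by rw [hσ]; linarith
  have hσC : σ < 1 / C := by rw [hσ]; linarith
  have hσC' : σ * C < 1 := by
    rwa [lt_div_iff₀ hCpos] at hσC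
  have hσ8 : σ * 8 < 1 := by
    have : 0 < σ * (32 / c) := by positivity
    rw [hC] at hσC'
    linarith
  have hσc32 : σ * (32 / c) < 1 := by
    rw [hC] at hσC'
    linarith
  have hσc : 32 * σ < c := by
    have h1 : σ * (32 / c) = 32 * σ / c := by ring
    rw [h1, div_lt_one hc] at hσc32
    exact hσc32
  have hθ34 : 7 / 8 < θ := by
    have : θ = 1 - σ := by rw [hσ]; ring
    linarith
  have hθ0 : 0 < θ := by linarith
  -- the number R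
  obtain ⟨R, hRge4, hRσ, hR1⟩ := choose_R c σ hc hσ0 hσc
  have hRn : 0 < R := by omega
  have hR0 : (0 : ℝ) < R := by exact_mod_cast hRn
  have hR2 : 2 ≤ R := by omega
  obtain ⟨m, hm1, n0, hn0⟩ := lower_pairs x0 hx0 hx1 hder σ hσ0
  have hm0 : (1 : ℝ) ≤ m := by exact_mod_cast hm1
  -- threshold for n
  obtain ⟨n2, hn2⟩ := exists_nat_ge ((6 * (m : ℝ) + 13) * (2 * R) / c)
  set nn : ℕ := max n0 (max n2 (R * (g0 + 1))) with hnn
  have h2m : 1 < 2 ^ m := Nat.one_lt_two_pow (by omega)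
  have htend : Filter.Tendsto (fun N : ℕ => (N : ℝ) ^ θ) Filter.atTop Filter.atTop :=
    (tendsto_rpow_atTop hθ0).comp tendsto_natCast_atTop_atTop
  have hev1 : ∀ᶠ N : ℕ in Filter.atTop, 2 * (((2 ^ m) ^ nn : ℕ) : ℝ) ≤ (N : ℝ) ^ θ :=
    htend.eventually_ge_atTop _
  have hev2 : ∀ᶠ N : ℕ in Filter.atTop, ((m : ℝ) + 1) / σ ≤ Real.log N :=
    (Real.tendsto_log_atTop.comp tendsto_natCast_atTop_atTop).eventually_ge_atTop _
  filter_upwards [hev1, hev2, Filter.eventually_ge_atTop 1] with N hN hNlog hNpos k hk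
  have hN0 : (0 : ℝ) < N := by exact_mod_cast hNpos
  have hN1 : (1 : ℝ) ≤ N := by exact_mod_cast hNpos
  set ℓ := Real.log N with hℓ
  have hℓ0 : 0 ≤ ℓ := Real.log_nonneg hN1
  have hσℓ : (m : ℝ) + 1 ≤ σ * ℓ := by
    rw [div_le_iff₀ hσ0] at hNlog
    linarith
  have hNθ1 : (1 : ℝ) ≤ (N : ℝ) ^ θ := Real.one_le_rpow hN1 hθ0.le
  have hNσ1 : (1 : ℝ) ≤ (N : ℝ) ^ σ := Real.one_le_rpow hN1 hσ0.le
  set T : ℕ := ⌊(N : ℝ) ^ θ⌋₊ with hT
  have hT1 : (T : ℝ) ≤ (N : ℝ) ^ θ := Nat.floor_le (by positivity)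
  have hT2 : (N : ℝ) ^ θ < T + 1 := Nat.lt_floor_add_one _
  set n : ℕ := Nat.log (2 ^ m) (T / 2) with hn
  have hTnn : (2 ^ m) ^ nn ≤ T / 2 := by
    rw [Nat.le_div_iff_mul_le (by norm_num)]
    apply Nat.le_floor
    push_cast at hN ⊢
    linarith
  have hnnn : nn ≤ n := Nat.le_log_of_pow_le h2m hTnn
  have hT0 : T / 2 ≠ 0 := by
    have : 0 < (2 ^ m) ^ nn := by positivity
    omega
  have hlow : (2 ^ m) ^ n ≤ T / 2 := Nat.pow_log_le_self _ hT0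
  have hupp : T / 2 < (2 ^ m) ^ (n + 1) := Nat.lt_pow_succ_log_self h2m _
  have hnm : (2 ^ m) ^ n = 2 ^ (n * m) := by rw [← pow_mul, mul_comm]
  set G : ℕ := n * m with hG
  have hA1 : 2 * 2 ^ G ≤ T := by
    rw [← hnm]
    omega
  have hA2 : T + 1 ≤ 2 ^ (G + m + 1) := by
    have h1 : (2 ^ m) ^ (n + 1) = 2 ^ (G + m) := by
      rw [← pow_mul, hG]
      congr 1
      ring
    have h2 : 2 ^ (G + m + 1) = 2 ^ (G + m) * 2 := pow_succ _ _
    rw [h1] at hupp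
    omega
  have hna : n0 ≤ n := le_trans (le_max_left _ _) hnnn
  have hnb : n2 ≤ n := le_trans (le_trans (le_max_left _ _) (le_max_right _ _)) hnnn
  have hnd : R * (g0 + 1) ≤ n := le_trans (le_trans (le_max_right _ _) (le_max_right _ _)) hnnn
  set n1 : ℕ := n / R with hn1
  have hn1R : 2 * n1 ≤ n := by
    have h1 : n1 * R ≤ n := Nat.div_mul_le_self n R
    nlinarith
  have hn1g : g0 + 1 ≤ n1 := by
    rw [hn1, Nat.le_div_iff_mul_le hRn, mul_comm]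
    exact hnd
  -- logarithms
  have hlog2 : 0 < Real.log 2 := Real.log_pos (by norm_num)
  have hlog2' : Real.log 2 < 0.6931471808 := Real.log_two_lt_d9
  have hlog2'' : 0.6931471803 < Real.log 2 := Real.log_two_gt_d9
  have hNθG : (N : ℝ) ^ θ ≤ 2 ^ (G + m + 1) := by
    have : ((T + 1 : ℕ) : ℝ) ≤ (2 : ℝ) ^ (G + m + 1) := by exact_mod_cast hA2
    push_cast at this
    linarith
  have hθℓ : θ * ℓ ≤ ((G : ℝ) + m + 1) * Real.log 2 := by
    have h1 := Real.log_le_log (by positivity) hNθG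
    rw [Real.log_rpow hN0, Real.log_pow] at h1
    push_cast at h1
    exact h1
  have hℓG : ℓ ≤ (G : ℝ) + m + 1 := by
    have h1 : 0 ≤ (G : ℝ) + m + 1 := by positivity
    have h2 : 7 / 8 * ℓ ≤ θ * ℓ := by gcongr
    have h3 : ((G : ℝ) + m + 1) * Real.log 2 ≤ ((G : ℝ) + m + 1) * 0.6931471808 := by gcongr
    nlinarith
  -- the cell
  set Y : ℕ := N / 2 ^ G + 1 with hY
  set Z : ℕ := (2 ^ G * (2 * Y + 1)) / (2 * 3 ^ hh G) with hZ
  have h3pos : 0 < 3 ^ hh G := by positivity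
  have h2pos : 0 < 2 ^ G := by positivity
  have hZ1 : 2 * 3 ^ hh G * Z ≤ 2 ^ G * (2 * Y + 1) := Nat.mul_div_le _ _
  have hZ2 : 2 ^ G * (2 * Y + 1) < 2 * 3 ^ hh G * (Z + 1) :=
    Nat.lt_mul_div_succ _ (by positivity)
  have hOK : OK G (hh G) Y Z := by
    constructor
    · nlinarith
    · nlinarith
  have hYN : N < 2 ^ G * Y := Nat.lt_mul_div_succ _ h2pos
  have hYN2 : 2 ^ G * (Y + 1) ≤ N + T := by
    have h1 : 2 ^ G * (N / 2 ^ G) ≤ N := Nat.mul_div_le _ _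
    calc 2 ^ G * (Y + 1) = 2 ^ G * (N / 2 ^ G) + 2 * 2 ^ G := by rw [hY]; ring
      _ ≤ N + T := by omega
  have hDD := cell_sizes N G m σ θ hNpos hσ0 (by rw [hσ]; ring) hNθG Y Z hY hZ
  rw [← hℓ] at hDD
  have hspec := hn0 n hna n1 hn1R Y Z hOK
  have hhle : hh (n1 * m) ≤ hh G := by
    unfold hh
    apply Nat.log_mono_right
    apply Nat.pow_le_pow_right (by norm_num)
    exact Nat.mul_le_mul_right _ (by omega)
  set a : ℕ := (n - n1) * m with ha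
  set b : ℕ := hh G - hh (n1 * m) with hb
  have haG : n1 * m + a = G := by
    rw [ha, hG, ← Nat.add_mul]
    congr 1
    omega
  have hbG : hh (n1 * m) + b = hh G := by omega
  have hGr : ((n * m : ℕ) : ℝ) = (G : ℝ) := by rw [hG]
  have hGnm : (G : ℝ) = (n : ℝ) * m := by rw [hG]; push_cast; ring
  have hnR : (n : ℝ) / R - 1 ≤ n1 := by
    have h1 : n < R * (n1 + 1) := Nat.lt_mul_div_succ _ hRn
    have h2 : (n : ℝ) < R * (n1 + 1) := by exact_mod_cast h1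
    rw [sub_le_iff_le_add, div_le_iff₀ hR0]
    linarith
  have hG0 : (0 : ℝ) ≤ G := Nat.cast_nonneg _
  have hn2G : (6 * (m : ℝ) + 13) * (2 * R) / c ≤ G := by
    refine le_trans hn2 ?_
    rw [hGnm]
    have h8 : (n2 : ℝ) ≤ n := by exact_mod_cast hnb
    have h9 : (0 : ℝ) ≤ n := Nat.cast_nonneg _
    calc (n2 : ℝ) ≤ n * 1 := by linarith
      _ ≤ n * m := mul_le_mul_of_nonneg_left hm0 h9
  have hσ1 : σ < 1 := by linarith
  have hcard := card_pairs_le (n1 * m) (hh (n1 * m)) a b Y Z k (σ * ((n * m : ℕ) : ℝ)) (by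
    intro p hp
    have hpP := (Finset.mem_filter.1 hp).1
    have hpD : |DD p| ≤ σ * ((n * m : ℕ) : ℝ) := (Finset.mem_filter.1 hp).2
    unfold PP at hpP
    have hpOK := (Finset.mem_filter.1 hpP).2
    refine hloc (n1 * m) ?_ _ _ hpOK _ ?_
    · calc g0 ≤ n1 * 1 := by omega
        _ ≤ n1 * m := Nat.mul_le_mul_left _ hm1
    · have hcalc : |(((k - ((s 2 Y : ℤ) - s 3 Z) - ((s 2 p.1 : ℤ) - s 3 p.2) : ℤ)) : ℝ)| ≤
          σ * ℓ + (2 * m + 10 + 2 * (σ * ℓ)) + σ * (G : ℝ) := by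
        push_cast
        calc |(k : ℝ) - (((s 2 Y : ℕ) : ℝ) - ((s 3 Z : ℕ) : ℝ)) -
                (((s 2 p.1 : ℕ) : ℝ) - ((s 3 p.2 : ℕ) : ℝ))|
            ≤ |(k : ℝ) - (((s 2 Y : ℕ) : ℝ) - ((s 3 Z : ℕ) : ℝ))| +
                |((s 2 p.1 : ℕ) : ℝ) - ((s 3 p.2 : ℕ) : ℝ)| := abs_sub _ _
          _ ≤ |(k : ℝ)| + |((s 2 Y : ℕ) : ℝ) - ((s 3 Z : ℕ) : ℝ)| +
                |((s 2 p.1 : ℕ) : ℝ) - ((s 3 p.2 : ℕ) : ℝ)| := by
              gcongr
              exact abs_sub _ _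
          _ ≤ σ * ℓ + (2 * m + 10 + 2 * (σ * ℓ)) + σ * (G : ℝ) := by
              have h1 : |((s 2 p.1 : ℕ) : ℝ) - ((s 3 p.2 : ℕ) : ℝ)| ≤ σ * (G : ℝ) := by
                rw [← hGr]
                exact hpD
              linarith
      refine le_trans hcalc ?_
      have h15 := repair_ineq m c σ R G ℓ n n1 hσ0 hσ1 hc hc1 hR0 hm0 hGnm hG0 hRσ hℓG hn2G hnR
      push_cast
      exact h15)
  rw [haG] at hcard
  -- the inclusion in the window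
  have hsub : ((Finset.Ico (2 ^ G * Y) (2 ^ G * (Y + 1))).filter (fun n => d n = k)).card ≤
      ((Finset.Ico N ⌈(N : ℝ) + (N : ℝ) ^ θ⌉₊).filter (fun n => d n = k)).card := by
    apply Finset.card_le_card
    apply Finset.filter_subset_filter
    apply Finset.Ico_subset_Ico
    · exact hYN.le
    · have h1 : ((2 ^ G * (Y + 1) : ℕ) : ℝ) ≤ (N : ℝ) + (N : ℝ) ^ θ := by
        have h2 : ((2 ^ G * (Y + 1) : ℕ) : ℝ) ≤ N + T := by exact_mod_cast hYN2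
        linarith
      have h5 : ((2 ^ G * (Y + 1) : ℕ) : ℝ) ≤ (⌈(N : ℝ) + (N : ℝ) ^ θ⌉₊ : ℝ) :=
        le_trans h1 (Nat.le_ceil _)
      exact_mod_cast h5
  have hcardR : (2 : ℝ) ^ (((a : ℕ) : ℝ) * H x0 - 2 * σ * ((n * m : ℕ) : ℝ)) ≤
      ((((Finset.Ico N ⌈(N : ℝ) + (N : ℝ) ^ θ⌉₊).filter (fun n => d n = k)).card : ℕ) : ℝ) := by
    refine le_trans hspec ?_
    exact_mod_cast le_trans hcard hsub
  refine le_trans ?_ hcardR
  have har : (G : ℝ) * (1 - 1 / R) ≤ (a : ℝ) := by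
    have h1 : (a : ℝ) = ((n : ℝ) - n1) * m := by
      rw [ha]
      have : n1 ≤ n := by omega
      push_cast [Nat.cast_sub this]
      ring
    rw [h1, hGnm]
    have h2 : (n1 : ℝ) ≤ n / R := by
      have h3 : n1 * R ≤ n := Nat.div_mul_le_self n R
      rw [le_div_iff₀ hR0]
      exact_mod_cast h3
    have h4 : (n : ℝ) * (1 - 1 / R) ≤ n - n1 := by
      have : (n : ℝ) * (1 - 1 / R) = n - n / R := by ring
      linarith
    calc (n : ℝ) * m * (1 - 1 / R) = (n * (1 - 1 / R)) * m := by ring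
      _ ≤ ((n : ℝ) - n1) * m := mul_le_mul_of_nonneg_right h4 (by positivity)
  rw [Real.rpow_def_of_pos hN0, Real.rpow_def_of_pos (by norm_num : (0 : ℝ) < 2), ← hℓ]
  apply Real.exp_le_exp.2
  rw [hGr]
  exact exp_ineq G a m σ c (H x0) ℓ R hσ0 hc hR0 hσc32 hσ8 (by linarith) hG0 hH0 hH1 hR1 hℓ0 har
    hσℓ (by rw [show (1 : ℝ) - σ = θ by rw [hσ]; ring]; exact hθℓ)

end Pool.Agent.Helper97.SI
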